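import Pool.Agent.helper37.MA.Spec

set_option autoImplicit false

namespace Pool.Agent.helper37.MA

open Finset Pool.Agent.NK Pool.Agent.helper37.NF

/-- The arithmetic of the middle range. -/
theorem HYP_alg (a i j f D C p q X Y Z : ℕ) (ha : 0 < a) (hD : 0 < D)
    (hi : a ≤ 2 * (2 * i + 1)) (hj : a ≤ 2 * j + 1)
    (h1 : f * D ≤ p * q * C) (h2 : p ^ 2 * (2 * i + 1) ≤ X) (h3 : q ^ 2 * (2 * j + 1) ≤ Y)
    (hZ : X * Y = Z) (h4 : Z ≤ 4 * a * D ^ 2) : a * f ^ 2 ≤ 8 * C ^ 2 := by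
  have e1 : (f * D) ^ 2 ≤ (p * q * C) ^ 2 := Nat.pow_le_pow_left h1 2
  have e2 : (p ^ 2 * (2 * i + 1)) * (q ^ 2 * (2 * j + 1)) ≤ X * Y := Nat.mul_le_mul h2 h3
  have e3 : f ^ 2 * ((2 * i + 1) * (2 * j + 1)) * D ^ 2 ≤ 4 * a * C ^ 2 * D ^ 2 := by
    calc f ^ 2 * ((2 * i + 1) * (2 * j + 1)) * D ^ 2
        = (f * D) ^ 2 * ((2 * i + 1) * (2 * j + 1)) := by ring
      _ ≤ (p * q * C) ^ 2 * ((2 * i + 1) * (2 * j + 1)) := Nat.mul_le_mul_right _ e1
      _ = ((p ^ 2 * (2 * i + 1)) * (q ^ 2 * (2 * j + 1))) * C ^ 2 := by ring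
      _ ≤ (X * Y) * C ^ 2 := Nat.mul_le_mul_right _ e2
      _ ≤ (4 * a * D ^ 2) * C ^ 2 := by
          rw [hZ]
          exact Nat.mul_le_mul_right _ h4
      _ = 4 * a * C ^ 2 * D ^ 2 := by ring
  have hD2 : 0 < D ^ 2 := pow_pos hD 2
  have e4 : f ^ 2 * ((2 * i + 1) * (2 * j + 1)) ≤ 4 * a * C ^ 2 := Nat.le_of_mul_le_mul_right e3 hD2
  have e5 : a * a ≤ (2 * (2 * i + 1)) * (2 * j + 1) := Nat.mul_le_mul hi hj
  have e6 : a * (a * f ^ 2) ≤ a * (8 * C ^ 2) := by
    calc a * (a * f ^ 2) = (a * a) * f ^ 2 := by ring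
      _ ≤ ((2 * (2 * i + 1)) * (2 * j + 1)) * f ^ 2 := Nat.mul_le_mul_right _ e5
      _ = 2 * (f ^ 2 * ((2 * i + 1) * (2 * j + 1))) := by ring
      _ ≤ 2 * (4 * a * C ^ 2) := Nat.mul_le_mul_left _ e4
      _ = a * (8 * C ^ 2) := by ring
  exact Nat.le_of_mul_le_mul_left e6 ha

theorem HYP (h1 : UPI_stmt) (h2 : CB1_stmt) (h3 : CB2_stmt) : HYP_stmt := by
  intro a b t i ha hab h4t h2t hit
  -- the middle range
  have mid : ∀ i, (a + 1) / 4 ≤ i → i ≤ (a + 1) / 2 → i ≤ t →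
      a * (ff a b t i) ^ 2 ≤ 8 * ((a + b).choose t) ^ 2 := by
    intro i hlo hhi hit
    have hi1 : 1 ≤ i := by omega
    have hia : i < a := by omega
    have k1 := h2 a b t i hi1 hia hab hit (by omega)
    have k2 := (h3 i).1
    have k3 := (h3 (a - i)).1
    have k4 := (h3 a).2 (by omega)
    have hD : 0 < (2 * a).choose a := Nat.choose_pos (by omega)
    have hZ : 16 ^ i * 16 ^ (a - i) = 16 ^ a := by
      rw [← pow_add]
      congr 1
      omega
    exact HYP_alg a i (a - i) (ff a b t i) ((2 * a).choose a) ((a + b).choose t)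
      ((2 * i).choose i) ((2 * (a - i)).choose (a - i)) (16 ^ i) (16 ^ (a - i)) (16 ^ a)
      (by omega) hD (by omega) (by omega) k1 k2 k3 hZ k4
  -- up to `lo`
  have up : ∀ d i, i + d = (a + 1) / 4 → ff a b t i ≤ ff a b t ((a + 1) / 4) := by
    intro d
    induction d with
    | zero =>
      intro i hi
      rw [← hi, Nat.add_zero]
    | succ d ih =>
      intro i hi
      have k1 := (h1 a b t i (by omega)).1 h4t (by omega)
      exact k1.trans (ih (i + 1) (by omega))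
  -- down to `hi`
  have down : ∀ d i, i = (a + 1) / 2 + d → i ≤ t → ff a b t i ≤ ff a b t ((a + 1) / 2) := by
    intro d
    induction d with
    | zero =>
      intro i hi _
      rw [hi, Nat.add_zero]
    | succ d ih =>
      intro i hi hit
      have k1 := (h1 a b t ((a + 1) / 2 + d) (by omega)).2 h2t (by omega)
      rw [show (a + 1) / 2 + d + 1 = i by omega] at k1
      exact k1.trans (ih _ rfl (by omega))
  rcases Nat.lt_or_ge i ((a + 1) / 4) with h | h
  · have k1 := up ((a + 1) / 4 - i) i (by omega)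
    have k2 := mid ((a + 1) / 4) (le_refl _) (by omega) (by omega)
    exact (Nat.mul_le_mul_left a (Nat.pow_le_pow_left k1 2)).trans k2
  · rcases Nat.lt_or_ge ((a + 1) / 2) i with h' | h'
    · have k1 := down (i - (a + 1) / 2) i (by omega) hit
      have k2 := mid ((a + 1) / 2) (by omega) (le_refl _) (by omega)
      exact (Nat.mul_le_mul_left a (Nat.pow_le_pow_left k1 2)).trans k2
    · exact mid i h h' hit

end Pool.Agent.helper37.MA
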